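import Pool.Agent.H50.ODG.Targets
import Pool.Agent.H57.CP.Targets

/-!
# Equivalent base points (row EXE)
-/

set_option autoImplicit false

open Pool.Agent.H57.CP Pool.Agent.H39.TO Pool.Agent.H39.OD Pool.Agent.H50.ODG

namespace Pool.Agent.H35.ODG

theorem mk_add_smul (a y m : V4) (c : ℝ) : mk a (y + c • m) = mk a y + c * mk a m := by
  simp [mk]
  ring

theorem mk_sub_left (a b y : V4) : mk (a - b) y = mk a y - mk b y := by
  simp [mk]
  ring

theorem mk_sub_right (a b y : V4) : mk y (a - b) = mk y a - mk y b := by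
  simp [mk]
  ring

theorem mk_symm (a b : V4) : mk a b = mk b a := by
  simp [mk]
  ring

theorem refl_eq (a y : V4) : refl a y = y + (2 * mk a y) • a := by
  ext i
  change y i + 2 * mk a y * a i = _
  simp

theorem refl_conj (m n1 : V4) (hm : mk m m = -1) (h : mk m n1 = -1 / 2) :
    refl m * refl n1 * refl m = refl (m - n1) := by
  ext1 i
  apply LinearMap.ext
  intro y
  rw [LinearMap.comp_apply, LinearMap.comp_apply, Module.End.mul_apply, Module.End.mul_apply]
  set z : V4 := LinearMap.single ℝ (fun _ : Fin 4 => ℝ) i y with hz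
  have e1 : refl m z = z + (2 * mk m z) • m := refl_eq m z
  have e2 : refl n1 (refl m z) = z + (2 * mk m z) • m + (2 * (mk n1 z - mk m z)) • n1 := by
    rw [refl_eq n1, e1, mk_add_smul, mk_symm n1 m, h]
    congr 2
    ring
  have e3 : refl m (refl n1 (refl m z)) =
      z + (2 * mk m z) • m + (2 * (mk n1 z - mk m z)) • n1 + (-(2 * mk n1 z)) • m := by
    rw [refl_eq m, e2, mk_add_smul, mk_add_smul, hm, h]
    congr 2
    ring
  rw [e3, refl_eq (m - n1), mk_sub_left]
  ext j
  simp only [Pi.add_apply, Pi.smul_apply, Pi.sub_apply, smul_eq_mul]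
  ring

theorem exe_core (hISO : T_ISO) (p k : ℕ) (hp : 7 ≤ p) (u w : ℚ) (x x' : H3) (n0 n1 n2 m : V4)
    (hC : Cf u (1 / p) w x x' n0 n1 n2) (hS : St k p (1 / p) w x x' n0 n1 n2 m)
    (hN : NoO n0 n1 n2) (hI : InS x x' n0 n1 n2) (hm : mk m n1 = -1 / 2) :
    ∃ g ∈ Gam n0 n1 n2, g x.1 = x'.1 := by
  have hp0 : (0 : ℝ) < p := by
    have : 0 < p := by omega
    exact_mod_cast this
  have hp1 : (1 : ℝ) < p := by
    have : 1 < p := by omega
    exact_mod_cast this
  have hpi := Real.pi_pos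
  have hcn : cn (1 / p) = Real.cos (Real.pi / p) := by
    unfold cn
    push_cast
    congr 1
    ring
  have h12 : mk n1 n2 = Real.cos (Real.pi / p) := by rw [hC.e12, hcn]
  have hs : 0 < Real.sin (Real.pi / p) := by
    apply Real.sin_pos_of_pos_of_lt_pi (by positivity)
    rw [div_lt_iff₀ hp0]
    nlinarith
  have hlt : mk n1 n2 ^ 2 < 1 := by
    rw [h12]
    nlinarith [Real.sin_sq_add_cos_sq (Real.pi / p)]
  have hmm : mk (m - n1) (m - n1) = -1 := by
    rw [mk_sub_left, mk_sub_right, mk_sub_right, hS.um, hC.u1, mk_symm n1 m, hm]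
    ring
  have hNO : NoO m n1 n2 := by
    rintro ⟨O, h1, h2, h3⟩
    exact hN ⟨O, hS.sp' O.1 h1 h3, h2, h3⟩
  have key := hISO x x' m n1 n2 1 hNO hS.um hC.u1 hC.u2 (by rw [hS.em, h12]) hlt hS.xm hC.xc hC.yb
    hC.yc (hS.is.1 hI) (by rw [one_smul]; exact hmm)
  rw [one_smul, ← refl_conj m n1 hS.um hm] at key
  refine ⟨_, ?_, key⟩
  have hsub : Submonoid.closure {(refl n0 : Module.End ℝ V4), refl n2} ≤ Gam n0 n1 n2 := by
    unfold Gam
    apply Submonoid.closure_mono
    intro z hz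
    rcases hz with hz | hz
    · exact Or.inl hz
    · exact Or.inr (Or.inr hz)
  have hmG : refl m ∈ Gam n0 n1 n2 := hsub hS.gm
  have hnG : refl n1 ∈ Gam n0 n1 n2 := Submonoid.subset_closure (Or.inr (Or.inl rfl))
  exact Submonoid.mul_mem _ (Submonoid.mul_mem _ hmG hnG) hmG

theorem pf_EXE (hSTM : T_STM) (hISO : T_ISO) (hLOR : T_LOR) : T_EXE := by
  intro p hodd hp
  have hp0 : (0 : ℝ) < p := by
    have : 0 < p := by omega
    exact_mod_cast this
  have hp7 : (7 : ℝ) ≤ p := by exact_mod_cast hp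
  have hpi := Real.pi_pos
  set th : ℝ := Real.pi / p with hth
  have hth0 : 0 < th := by positivity
  have hpth : p * th = Real.pi := by
    rw [hth]
    field_simp
  have hth7 : 7 * th ≤ Real.pi := by nlinarith
  have hsin : 0 < Real.sin th := Real.sin_pos_of_pos_of_lt_pi hth0 (by linarith)
  have hcos : 0 < Real.cos th := Real.cos_pos_of_mem_Ioo ⟨by linarith, by linarith⟩
  have hcn : cn (1 / p) = Real.cos th := by
    unfold cn
    push_cast
    rw [hth]
    congr 1
    ring
  have hcn2 : cn (1 / 2) = 0 := by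
    unfold cn
    push_cast
    rw [show ((1 : ℝ) / 2 * Real.pi) = Real.pi / 2 by ring, Real.cos_pi_div_two]
  have hcn3 : cn (1 / 3) = 1 / 2 := by
    unfold cn
    push_cast
    rw [show ((1 : ℝ) / 3 * Real.pi) = Real.pi / 3 by ring, Real.cos_pi_div_three]
  refine ⟨?_, ?_, ?_⟩
  · intro x x' n0 n1 n2 hC hN hI
    have hC' : Cf (((2 : ℕ) : ℚ) / p) (1 / p) (1 / 2) x x' n0 n1 n2 := by
      push_cast
      exact hC
    obtain ⟨m, hS⟩ := hSTM 2 p (1 / p) (1 / 2) x x' n0 n1 n2 (le_refl 2) (by omega)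
      (Nat.coprime_two_left.2 hodd) hC'
    apply exe_core hISO p 2 hp _ _ x x' n0 n1 n2 m hC hS hN hI
    have e := hS.eq
    have e1 : ((2 : ℕ) : ℝ) * Real.pi / p = 2 * th := by
      rw [hth]
      push_cast
      ring
    have e2 : (((2 : ℕ) : ℝ) - 1) * Real.pi / p = th := by
      rw [hth]
      push_cast
      ring
    rw [e1, e2, hcn, hcn2, Real.sin_two_mul] at e
    have h0 : 2 * Real.sin th * Real.cos th ≠ 0 := by positivity
    apply mul_left_cancel₀ h0
    rw [e]
    ring
  · intro x x' n0 n1 n2 hC hN hI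
    have hC' : Cf (((4 : ℕ) : ℚ) / p) (1 / p) (1 / p) x x' n0 n1 n2 := by
      push_cast
      exact hC
    have hco : Nat.Coprime 4 p := by
      have := Nat.Coprime.pow_left 2 (Nat.coprime_two_left.2 hodd)
      norm_num at this
      exact this
    obtain ⟨m, hS⟩ := hSTM 4 p (1 / p) (1 / p) x x' n0 n1 n2 (by norm_num) (by omega) hco hC'
    apply exe_core hISO p 4 hp _ _ x x' n0 n1 n2 m hC hS hN hI
    have e := hS.eq
    have e1 : ((4 : ℕ) : ℝ) * Real.pi / p = 2 * (2 * th) := by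
      rw [hth]
      push_cast
      ring
    have e2 : (((4 : ℕ) : ℝ) - 1) * Real.pi / p = 3 * th := by
      rw [hth]
      push_cast
      ring
    rw [e1, e2, hcn, Real.sin_two_mul (2 * th), Real.sin_two_mul, Real.cos_two_mul,
      Real.sin_three_mul] at e
    have h2 : 0 < Real.cos (2 * th) := Real.cos_pos_of_mem_Ioo ⟨by linarith, by linarith⟩
    rw [Real.cos_two_mul] at h2
    have h0 : 2 * (2 * Real.sin th * Real.cos th) * (2 * Real.cos th ^ 2 - 1) ≠ 0 := by positivity
    apply mul_left_cancel₀ h0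
    rw [e]
    have hsq := Real.sin_sq_add_cos_sq th
    have h3 : Real.sin th ^ 3 = Real.sin th * (1 - Real.cos th ^ 2) := by
      rw [← hsq]
      ring
    rw [h3]
    ring
  · intro h3p x x' n0 n1 n2 hC hN hI
    have hC' : Cf (((3 : ℕ) : ℚ) / p) (1 / p) (1 / 3) x x' n0 n1 n2 := by
      push_cast
      exact hC
    obtain ⟨m, hS⟩ := hSTM 3 p (1 / p) (1 / 3) x x' n0 n1 n2 (by norm_num) (by omega)
      ((Nat.Prime.coprime_iff_not_dvd Nat.prime_three).2 h3p) hC'
    apply exe_core hISO p 3 hp _ _ x x' n0 n1 n2 m hC hS hN hI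
    have e := hS.eq
    have e1 : ((3 : ℕ) : ℝ) * Real.pi / p = 3 * th := by
      rw [hth]
      push_cast
      ring
    have e2 : (((3 : ℕ) : ℝ) - 1) * Real.pi / p = 2 * th := by
      rw [hth]
      push_cast
      ring
    have h3 : 0 < Real.sin (3 * th) := Real.sin_pos_of_pos_of_lt_pi (by linarith) (by linarith)
    rw [e1, e2, hcn, hcn3, Real.sin_two_mul] at e
    apply mul_left_cancel₀ h3.ne'
    rw [e, Real.sin_three_mul]
    have hsq := Real.sin_sq_add_cos_sq th
    have h4 : Real.sin th ^ 3 = Real.sin th * (1 - Real.cos th ^ 2) := by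
      rw [← hsq]
      ring
    rw [h4]
    ring

end Pool.Agent.H35.ODG
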