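import Pool.Agent.H50.ODG.Targets

/-!
# The two parts of a triangle, right angle at the foot (row KS2)
-/

set_option autoImplicit false

open Pool.Agent.H57.CP Pool.Agent.H39.TO Pool.Agent.H39.OD Pool.Agent.H50.ODG

namespace Pool.Agent.H35.ODG

theorem cn_half : cn (1 / 2) = 0 := by
  unfold cn
  push_cast
  rw [show ((1 : ℝ) / 2 * Real.pi) = Real.pi / 2 by ring, Real.cos_pi_div_two]

theorem cn_third : cn (1 / 3) = 1 / 2 := by
  unfold cn
  push_cast
  rw [show ((1 : ℝ) / 3 * Real.pi) = Real.pi / 3 by ring, Real.cos_pi_div_three]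

theorem cn_anti (u v : ℚ) (hu : 0 ≤ u) (hv : v ≤ 1) (h : u ≤ v) : cn v ≤ cn u := by
  unfold cn
  have hp := Real.pi_pos
  have h0 : (0 : ℝ) ≤ u := by exact_mod_cast hu
  have h1 : (v : ℝ) ≤ 1 := by exact_mod_cast hv
  have h2 : (u : ℝ) ≤ v := by exact_mod_cast h
  apply Real.cos_le_cos_of_nonneg_of_le_pi (by positivity)
  · nlinarith
  · nlinarith

theorem cn_inj (u v : ℚ) (hu : 0 ≤ u) (hu1 : u ≤ 1) (hv : 0 ≤ v) (hv1 : v ≤ 1)
    (h : cn u = cn v) : u = v := by
  unfold cn at h
  have hp := Real.pi_pos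
  have h0 : (0 : ℝ) ≤ u := by exact_mod_cast hu
  have h1 : (u : ℝ) ≤ 1 := by exact_mod_cast hu1
  have h2 : (0 : ℝ) ≤ v := by exact_mod_cast hv
  have h3 : (v : ℝ) ≤ 1 := by exact_mod_cast hv1
  have h4 := Real.injOn_cos (Set.mem_Icc.2 ⟨by positivity, by nlinarith⟩)
    (Set.mem_Icc.2 ⟨by positivity, by nlinarith⟩) h
  have h5 : (u : ℝ) = v := mul_right_cancel₀ hp.ne' h4
  exact_mod_cast h5

theorem cn_le_one (u : ℚ) : cn u ≤ 1 := Real.cos_le_one _

/-- the forms of the second angle -/
theorem form1 (hKN2 : T_KN2) (q : ℕ) (u : ℚ) (hq : 2 ≤ q) (h : Kn (1 / q) u (1 / 2)) :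
    0 < u ∧ u ≤ 1 / 3 ∧ ((∃ b : ℕ, 3 ≤ b ∧ u = 1 / b) ∨ (Odd q ∧ 7 ≤ q ∧ u = 2 / q)) := by
  have hq0 : (q : ℚ) ≠ 0 := by
    have : q ≠ 0 := by omega
    exact_mod_cast this
  rcases hKN2 _ _ h with ⟨a, b, ha, hb, _, h2⟩ | ⟨p, hp, hp7, ⟨h1, h2⟩ | ⟨h1, h2⟩⟩
  · have hb3 : (3 : ℚ) ≤ b := by exact_mod_cast hb
    refine ⟨?_, ?_, Or.inl ⟨b, hb, h2⟩⟩
    · rw [h2]
      positivity
    · rw [h2]
      exact one_div_le_one_div_of_le (by norm_num) hb3
  · have hqp : (q : ℚ) = p := by
      simpa using h1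
    have hqp' : q = p := by exact_mod_cast hqp
    subst hqp'
    have hq7 : (7 : ℚ) ≤ q := by exact_mod_cast hp7
    refine ⟨?_, ?_, Or.inr ⟨hp, hp7, h2⟩⟩
    · rw [h2]
      positivity
    · rw [h2, div_le_iff₀ (by positivity)]
      linarith
  · exfalso
    have hp0 : (p : ℚ) ≠ 0 := by
      have : p ≠ 0 := by omega
      exact_mod_cast this
    have h3 : (p : ℚ) = 2 * q := by
      field_simp at h1
      linarith
    have h4 : p = 2 * q := by exact_mod_cast h3
    obtain ⟨m, hm⟩ := hp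
    omega

theorem form2 (hKN2 : T_KN2) (x v : ℚ) (h : Kn x v (1 / 2)) :
    x ≤ 1 / 3 ∧ 0 < v ∧ v ≤ 1 / 3 := by
  rcases hKN2 _ _ h with ⟨a, b, ha, hb, h1, h2⟩ | ⟨p, hp, hp7, ⟨h1, h2⟩ | ⟨h1, h2⟩⟩
  · have ha3 : (3 : ℚ) ≤ a := by exact_mod_cast ha
    have hb3 : (3 : ℚ) ≤ b := by exact_mod_cast hb
    rw [h1, h2]
    exact ⟨one_div_le_one_div_of_le (by norm_num) ha3, by positivity,
      one_div_le_one_div_of_le (by norm_num) hb3⟩
  · have hp7' : (7 : ℚ) ≤ p := by exact_mod_cast hp7
    rw [h1, h2]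
    refine ⟨one_div_le_one_div_of_le (by norm_num) (by linarith), by positivity, ?_⟩
    rw [div_le_iff₀ (by positivity)]
    linarith
  · have hp7' : (7 : ℚ) ≤ p := by exact_mod_cast hp7
    rw [h1, h2]
    refine ⟨?_, by positivity, one_div_le_one_div_of_le (by norm_num) (by linarith)⟩
    rw [div_le_iff₀ (by positivity)]
    linarith

theorem pf_KS2 (hKN2 : T_KN2) (hKNS : T_KNS) (hKNL : T_KNL) : T_KS2 := by
  intro q k u v hk hkq hco h1 h2 hsum heq
  rw [show (1 : ℚ) - 1 / 2 = 1 / 2 by norm_num] at h2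
  rw [cn_half, mul_zero, zero_add] at heq
  obtain ⟨hu0, hu3, hu⟩ := form1 hKN2 q u (by omega) h1
  obtain ⟨hx, hv0, hv3⟩ := form2 hKN2 _ v h2
  have hpi := Real.pi_pos
  have hpi2 := Real.pi_lt_d2
  have hq0 : 0 < q := by omega
  have hqr : (0 : ℝ) < q := by exact_mod_cast hq0
  have hqq : (0 : ℚ) < q := by exact_mod_cast hq0
  have hxr : 3 * ((k : ℝ) - 1) ≤ q := by
    rw [div_le_iff₀ hqq] at hx
    have : 3 * ((k : ℚ) - 1) ≤ q := by linarith
    exact_mod_cast this
  set th : ℝ := Real.pi / q with hth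
  have hth0 : 0 < th := by positivity
  have hqth : q * th = Real.pi := by
    rw [hth]
    field_simp
  have hqk : (k : ℝ) + 1 ≤ q := by
    have : k + 1 ≤ q := hkq
    exact_mod_cast this
  have hq3 : (3 : ℝ) ≤ q := by
    have : 3 ≤ q := by omega
    exact_mod_cast this
  have hthpi : th < Real.pi / 2 := by nlinarith
  have hsin : 0 < Real.sin th := Real.sin_pos_of_pos_of_lt_pi hth0 (by linarith)
  have harg : ((k : ℝ) - 1) * Real.pi / q = ((k : ℝ) - 1) * th := by
    rw [hth]
    ring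
  rw [harg] at heq
  have hcu : 1 / 2 ≤ cn u := by
    rw [← cn_third]
    exact cn_anti u (1 / 3) hu0.le (by norm_num) hu3
  rcases Nat.lt_or_ge k 4 with hk4 | hk4
  · have hk23 : k = 2 ∨ k = 3 := by omega
    rcases hk23 with rfl | rfl
    · -- k = 2
      have e1 : ((2 : ℕ) : ℝ) - 1 = 1 := by norm_num
      rw [e1, one_mul, mul_comm (Real.sin th)] at heq
      have h3 : cn v = cn u := mul_right_cancel₀ hsin.ne' heq
      have h4 : v = u := cn_inj v u hv0.le (by linarith) hu0.le (by linarith) h3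
      have hodd : Odd q := by
        rcases Nat.even_or_odd q with h | h
        · exfalso
          have : 2 ∣ Nat.gcd 2 q := Nat.dvd_gcd (dvd_refl 2) h.two_dvd
          rw [Nat.Coprime] at hco
          rw [hco] at this
          omega
        · exact h
      subst h4
      refine ⟨hsum, Or.inl ?_⟩
      rcases hu with ⟨b, hb, hub⟩ | ⟨_, h7, hub⟩
      · exact Or.inr (Or.inl ⟨q, b, hodd, by omega, by omega, by push_cast; rfl, hub, hub⟩)
      · exact Or.inr (Or.inr (Or.inr (Or.inr (Or.inr (Or.inl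
          ⟨q, hodd, h7, by push_cast; rfl, hub, hub⟩)))))
    · -- k = 3
      have e1 : ((3 : ℕ) : ℝ) - 1 = 2 := by norm_num
      rw [e1, Real.sin_two_mul] at heq
      have h3 : cn v = 2 * Real.cos th * cn u := by
        apply mul_right_cancel₀ hsin.ne'
        rw [heq]
        ring
      have hq6 : (6 : ℝ) ≤ q := by
        rw [e1] at hxr
        linarith
      have hq6' : 6 ≤ q := by exact_mod_cast hq6
      have h3q : ¬ 3 ∣ q := by
        intro h
        have : 3 ∣ Nat.gcd 3 q := Nat.dvd_gcd (dvd_refl 3) h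
        rw [Nat.Coprime] at hco
        rw [hco] at this
        omega
      have hq7 : 7 ≤ q := by
        rcases Nat.lt_or_ge q 7 with h | h
        · exfalso
          have : q = 6 := by omega
          rw [this] at h3q
          norm_num at h3q
        · exact h
      have hq7r : (7 : ℝ) ≤ q := by exact_mod_cast hq7
      have hth7 : th ≤ 0.45 := by nlinarith
      have hc1 : 0.898 ≤ Real.cos th := by
        have := Real.one_sub_sq_div_two_le_cos (x := th)
        nlinarith
      by_cases hu3' : u = 1 / 3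
      · rw [hu3', cn_third] at h3
        have h4 : cn v = cn (1 / q) := by
          rw [h3]
          unfold cn
          push_cast
          rw [hth]
          ring_nf
        have hq1 : (1 : ℚ) / q ≤ 1 := by
          rw [div_le_iff₀ hqq]
          have : (1 : ℚ) ≤ q := by exact_mod_cast (by omega : 1 ≤ q)
          linarith
        have h5 : v = 1 / q := cn_inj v (1 / q) hv0.le (by linarith) (by positivity) hq1 h4
        refine ⟨hsum, ?_⟩
        refine Or.inr (Or.inr (Or.inr (Or.inl ?_)))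
        exact Or.inr (Or.inr (Or.inr (Or.inl ⟨q, h3q, hq7, hu3', h5, by push_cast; rfl⟩)))
      · exfalso
        have hu27 : u ≤ 2 / 7 := by
          rcases hu with ⟨b, hb, hub⟩ | ⟨_, h7, hub⟩
          · have hb4 : 4 ≤ b := by
              rcases Nat.lt_or_ge b 4 with h | h
              · exfalso
                have : b = 3 := by omega
                rw [this] at hub
                exact hu3' (by rw [hub]; norm_num)
              · exact h
            have hb4' : (4 : ℚ) ≤ b := by exact_mod_cast hb4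
            rw [hub, div_le_iff₀ (by positivity)]
            linarith
          · have h7' : (7 : ℚ) ≤ q := by exact_mod_cast h7
            rw [hub, div_le_iff₀ hqq]
            linarith
        have hc2 : 0.59 ≤ cn u := by
          have h5 : cn (2 / 7) ≤ cn u := cn_anti u (2 / 7) hu0.le (by norm_num) hu27
          have h6 := Real.one_sub_sq_div_two_le_cos (x := (((2 / 7 : ℚ) : ℝ) * Real.pi))
          have h7 : 1 - (((2 / 7 : ℚ) : ℝ) * Real.pi) ^ 2 / 2 ≤ cn (2 / 7) := h6
          push_cast at h7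
          nlinarith
        have h8 := cn_le_one v
        nlinarith
  · exfalso
    have hk4r : (4 : ℝ) ≤ k := by exact_mod_cast hk4
    have hm : 3 * th ≤ ((k : ℝ) - 1) * th := by nlinarith
    have hm2 : ((k : ℝ) - 1) * th ≤ Real.pi / 3 := by nlinarith
    have hth9 : th ≤ 0.35 := by nlinarith
    have hs3 : Real.sin (3 * th) ≤ Real.sin (((k : ℝ) - 1) * th) :=
      Real.sin_le_sin_of_le_of_le_pi_div_two (by linarith) (by linarith) hm
    rw [Real.sin_three_mul] at hs3
    have hsle : Real.sin th ≤ th := Real.sin_le hth0.le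
    have hs35 : Real.sin th ≤ 0.35 := hsle.trans hth9
    have h9 : 2 * Real.sin th < 3 * Real.sin th - 4 * Real.sin th ^ 3 := by
      have : Real.sin th ^ 2 ≤ 0.35 ^ 2 := pow_le_pow_left₀ hsin.le hs35 2
      nlinarith
    have h10 := cn_le_one v
    have h11 : 2 * Real.sin th < Real.sin (((k : ℝ) - 1) * th) := by linarith
    have h12 : Real.sin th < Real.sin (((k : ℝ) - 1) * th) * cn u := by nlinarith
    nlinarith

end Pool.Agent.H35.ODG
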